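import Pool.Agent.Y305.BC.Stm

/-! The Cantor set has dimension at least one (job BC-DIM). -/

set_option autoImplicit false

open MeasureTheory Metric Set Filter Topology
open scoped ContDiff ENNReal NNReal

namespace Pool.Agent.Y361.BC

open Pool.Agent.Y305.BC

theorem ll_pos (n : ℕ) : 0 < ll n := by
  unfold ll
  positivity

theorem ll_half (n : ℕ) :
    (1 / 4) * (1 / 2) ^ n * (1 / ((n : ℝ) + 2) ^ 4) ≤ ll n - 2 * ll (n + 1) := by
  unfold ll
  have h0 : (0 : ℝ) < (1 / 2) ^ n := by positivity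
  have hn : (0 : ℝ) ≤ n := Nat.cast_nonneg n
  have e : (1 / 4 : ℝ) * (1 / 2) ^ n / ((n : ℝ) + 1) ^ 3 -
      2 * ((1 / 4) * (1 / 2) ^ (n + 1) / (((n + 1 : ℕ) : ℝ) + 1) ^ 3) =
      (1 / 4) * (1 / 2) ^ n * (1 / ((n : ℝ) + 1) ^ 3 - 1 / ((n : ℝ) + 2) ^ 3) := by
    push_cast
    rw [pow_succ]
    ring
  rw [e]
  have h2 : (1 : ℝ) / ((n : ℝ) + 2) ^ 4 ≤ 1 / ((n : ℝ) + 1) ^ 3 - 1 / ((n : ℝ) + 2) ^ 3 := by
    have a1 : (0 : ℝ) < ((n : ℝ) + 1) ^ 3 := by positivity
    have a2 : (0 : ℝ) < ((n : ℝ) + 2) ^ 3 := by positivity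
    have a3 : (0 : ℝ) < ((n : ℝ) + 2) ^ 4 := by positivity
    rw [div_sub_div _ _ a1.ne' a2.ne', div_le_div_iff₀ a3 (by positivity)]
    nlinarith [pow_nonneg hn 2, pow_nonneg hn 3, pow_nonneg hn 4, pow_nonneg hn 5,
      pow_nonneg hn 6]
  exact mul_le_mul_of_nonneg_left h2 (by positivity)

theorem ll_lt (n : ℕ) : 2 * ll (n + 1) < ll n := by
  have := ll_half n
  have h : (0 : ℝ) < (1 / 4) * (1 / 2) ^ n * (1 / ((n : ℝ) + 2) ^ 4) := by positivity
  linarith

theorem dl_pos (n : ℕ) : 0 < dl n := by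
  have := ll_lt n
  have := ll_pos (n + 1)
  unfold dl
  linarith

theorem ll_le (n : ℕ) : ll n ≤ (1 / 2) ^ n := by
  unfold ll
  have h0 : (0 : ℝ) < (1 / 2) ^ n := by positivity
  rw [div_le_iff₀ (by positivity)]
  have : (1 : ℝ) ≤ ((n : ℝ) + 1) ^ 3 := one_le_pow₀ (by linarith [Nat.cast_nonneg (α := ℝ) n])
  nlinarith

theorem ll_tend : Tendsto ll atTop (𝓝 0) := by
  refine squeeze_zero (fun n => (ll_pos n).le) ll_le ?_
  exact tendsto_pow_atTop_nhds_zero_of_lt_one (by norm_num) (by norm_num)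

theorem dl_sum (n : ℕ) : HasSum (fun k : ℕ => dl (k + n)) (ll n) := by
  rw [hasSum_iff_tendsto_nat_of_nonneg (fun k => (dl_pos _).le)]
  have h1 : ∀ m : ℕ, ∑ i ∈ Finset.range m, dl (i + n) = ll n - ll (m + n) := by
    intro m
    induction m with
    | zero => simp
    | succ m ih =>
      rw [Finset.sum_range_succ, ih, dl, show m + 1 + n = m + n + 1 by ring]
      ring
  simp only [h1]
  have h2 : Tendsto (fun m => ll (m + n)) atTop (𝓝 0) := (tendsto_add_atTop_iff_nat n).2 ll_tend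
  simpa using tendsto_const_nhds.sub h2

theorem term_bound (w : ℕ → Bool) (k : ℕ) :
    0 ≤ (if w k then dl k else 0) ∧ (if w k then dl k else 0) ≤ dl k := by
  have := dl_pos k
  split_ifs
  · exact ⟨this.le, le_rfl⟩
  · exact ⟨le_rfl, this.le⟩

theorem cc_summable (w : ℕ → Bool) : Summable fun k => if w k then dl k else 0 := by
  refine Summable.of_nonneg_of_le (fun k => (term_bound w k).1) (fun k => (term_bound w k).2) ?_
  simpa using (dl_sum 0).summable

theorem cc_split (w : ℕ → Bool) (n : ℕ) :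
    cc w = xx ((Finset.range n).filter fun k => w k = true) +
      ∑' k, if w (k + n) then dl (k + n) else 0 := by
  rw [cc, ← (cc_summable w).sum_add_tsum_nat_add n, xx, Finset.sum_filter]

theorem tail_bound (w : ℕ → Bool) (n : ℕ) :
    0 ≤ (∑' k, if w (k + n) then dl (k + n) else 0) ∧
      (∑' k, if w (k + n) then dl (k + n) else 0) ≤ ll n := by
  have hs : Summable fun k => if w (k + n) then dl (k + n) else 0 :=
    (summable_nat_add_iff (f := fun k => if w k then dl k else 0) n).2 (cc_summable w)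
  refine ⟨tsum_nonneg fun k => (term_bound w (k + n)).1, ?_⟩
  rw [← (dl_sum n).tsum_eq]
  exact hs.tsum_le_tsum (fun k => (term_bound w (k + n)).2) (dl_sum n).summable

theorem near (w : ℕ → Bool) (n : ℕ) :
    xx ((Finset.range n).filter fun k => w k = true) ≤ cc w ∧
      cc w ≤ xx ((Finset.range n).filter fun k => w k = true) + ll n := by
  have h1 := cc_split w n
  have h2 := tail_bound w n
  constructor <;> linarith [h2.1, h2.2]

theorem xx_congr {w w' : ℕ → Bool} {n : ℕ} (h : ∀ k < n, w k = w' k) :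
    ((Finset.range n).filter fun k => w k = true) = (Finset.range n).filter fun k => w' k = true := by
  ext k
  simp only [Finset.mem_filter, Finset.mem_range]
  constructor
  · rintro ⟨a, b⟩
    exact ⟨a, by rw [← h k a]; exact b⟩
  · rintro ⟨a, b⟩
    exact ⟨a, by rw [h k a]; exact b⟩

/-- the separation at level `n` -/
noncomputable def sp (n : ℕ) : ℝ := (1 / 4) * (1 / 2) ^ n * (1 / ((n : ℝ) + 2) ^ 4)

theorem sp_pos (n : ℕ) : 0 < sp n := by
  unfold sp
  positivity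

theorem cc_sep' {w w' : ℕ → Bool} {n : ℕ} (h : ∀ k < n, w k = w' k) (h1 : w n = true)
    (h2 : w' n = false) : sp n ≤ cc w - cc w' := by
  have a1 := near w (n + 1)
  have a2 := near w' (n + 1)
  have e1 : xx ((Finset.range (n + 1)).filter fun k => w k = true) =
      xx ((Finset.range n).filter fun k => w k = true) + dl n := by
    rw [Finset.range_add_one, Finset.filter_insert, if_pos h1, xx, xx, Finset.sum_insert (by simp)]
    ring
  have e2 : xx ((Finset.range (n + 1)).filter fun k => w' k = true) =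
      xx ((Finset.range n).filter fun k => w k = true) := by
    rw [Finset.range_add_one, Finset.filter_insert, if_neg (by rw [h2]; simp), xx_congr h]
  rw [e1] at a1
  rw [e2] at a2
  have := ll_half n
  have e3 : dl n = ll n - ll (n + 1) := rfl
  unfold sp
  linarith [a1.1, a2.2]

theorem cc_sep {w w' : ℕ → Bool} {n : ℕ} (h : ∀ k < n, w k = w' k) (h1 : w n ≠ w' n) :
    sp n ≤ |cc w - cc w'| := by
  by_cases h2 : w n = true
  · have h3 : w' n = false := by
      rw [h2] at h1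
      exact Bool.eq_false_of_not_eq_true fun h => h1 h.symm
    exact (cc_sep' h h2 h3).trans (le_abs_self _)
  · have h2' : w n = false := Bool.eq_false_of_not_eq_true h2
    have h3 : w' n = true := by
      rw [h2'] at h1
      by_contra h4
      exact h1 (Bool.eq_false_of_not_eq_true h4).symm
    rw [abs_sub_comm]
    exact (cc_sep' (fun k hk => (h k hk).symm) h3 h2').trans (le_abs_self _)

theorem first_diff {w w' : ℕ → Bool} (h : w ≠ w') : ∃ n, (∀ k < n, w k = w' k) ∧ w n ≠ w' n := by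
  classical
  have hex : ∃ n, w n ≠ w' n := by
    by_contra hcon
    push Not at hcon
    exact h (funext hcon)
  refine ⟨Nat.find hex, fun k hk => ?_, Nat.find_spec hex⟩
  have := Nat.find_min hex hk
  simpa using this

theorem cc_inj : Function.Injective cc := by
  intro w w' h
  by_contra hne
  obtain ⟨n, h1, h2⟩ := first_diff hne
  have := cc_sep h1 h2
  rw [h, sub_self, abs_zero] at this
  have := sp_pos n
  linarith

/-- the binary value -/
noncomputable def yy (w : ℕ → Bool) : ℝ :=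
  Real.ofDigits (b := 2) fun k => if w k then 1 else 0

/-- comparison of the powers -/
theorem sp_pow (s : ℝ) (hs0 : 0 < s) (hs1 : s < 1) :
    ∃ C : ℝ≥0, ∀ n : ℕ, ((2 : ℝ) ^ n)⁻¹ ≤ C * (sp n) ^ s := by
  have hT : Tendsto (fun n : ℕ => ((n : ℝ) + 2) ^ 4 * ((1 / 2 : ℝ) ^ (1 - s)) ^ n) atTop (𝓝 0) := by
    have hr : (1 / 2 : ℝ) ^ (1 - s) < 1 := Real.rpow_lt_one (by norm_num) (by norm_num) (by linarith)
    have hr0 : 0 < (1 / 2 : ℝ) ^ (1 - s) := by positivity
    set r := (1 / 2 : ℝ) ^ (1 - s) with hrdef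
    have h4 := tendsto_pow_const_mul_const_pow_of_abs_lt_one 4 (r := r)
      (by rw [abs_of_pos hr0]; exact hr)
    have h5 : Tendsto (fun n : ℕ => (((n + 2 : ℕ) : ℝ)) ^ 4 * r ^ (n + 2)) atTop (𝓝 0) :=
      (tendsto_add_atTop_iff_nat (f := fun n : ℕ => ((n : ℝ)) ^ 4 * r ^ n) 2).2 h4
    have h6 := h5.const_mul ((r ^ 2)⁻¹)
    rw [mul_zero] at h6
    refine h6.congr fun n => ?_
    push_cast
    rw [pow_add]
    field_simp
  obtain ⟨C, hC⟩ := hT.bddAbove_range
  have hC' : ∀ n : ℕ, ((n : ℝ) + 2) ^ 4 * ((1 / 2 : ℝ) ^ (1 - s)) ^ n ≤ C :=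
    fun n => hC ⟨n, rfl⟩
  have hC0 : 0 ≤ C := le_trans (by positivity) (hC' 0)
  refine ⟨⟨4 * C, by positivity⟩, fun n => ?_⟩
  have h0 : (0 : ℝ) < (1 / 2) ^ n := by positivity
  have e1 : ((2 : ℝ) ^ n)⁻¹ = (1 / 2) ^ n := by
    rw [one_div, inv_pow]
  have e2 : ((1 / 2 : ℝ) ^ n) ^ s = ((1 / 2 : ℝ) ^ s) ^ n := by
    rw [← Real.rpow_natCast, ← Real.rpow_mul (by norm_num), mul_comm, Real.rpow_mul (by norm_num),
      Real.rpow_natCast]
  have e3 : (1 / 2 : ℝ) ^ n = ((1 / 2 : ℝ) ^ s) ^ n * ((1 / 2 : ℝ) ^ (1 - s)) ^ n := by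
    rw [← mul_pow, ← Real.rpow_add (by norm_num)]
    norm_num
  have b1 : (1 / 4 : ℝ) ≤ (1 / 4 : ℝ) ^ s := by
    have := Real.rpow_le_rpow_of_exponent_ge (x := (1 / 4 : ℝ)) (by norm_num) (by norm_num) hs1.le
    simpa using this
  have b2 : 1 / ((n : ℝ) + 2) ^ 4 ≤ (1 / ((n : ℝ) + 2) ^ 4) ^ s := by
    have h1 : (1 : ℝ) ≤ ((n : ℝ) + 2) ^ 4 := one_le_pow₀ (by linarith [Nat.cast_nonneg (α := ℝ) n])
    have := Real.rpow_le_rpow_of_exponent_ge (x := 1 / ((n : ℝ) + 2) ^ 4) (by positivity)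
      (by rw [div_le_one (by positivity)]; exact h1) hs1.le
    simpa using this
  have e4 : (sp n) ^ s = (1 / 4 : ℝ) ^ s * ((1 / 2 : ℝ) ^ s) ^ n * (1 / ((n : ℝ) + 2) ^ 4) ^ s := by
    unfold sp
    rw [Real.mul_rpow (by positivity) (by positivity), Real.mul_rpow (by norm_num) (by positivity),
      e2]
  rw [e1, e4, e3]
  show _ ≤ (4 * C) * _
  have hq : (0 : ℝ) < ((1 / 2 : ℝ) ^ s) ^ n := by positivity
  have h7 : ((1 / 2 : ℝ) ^ (1 - s)) ^ n ≤ C * (1 / ((n : ℝ) + 2) ^ 4) := by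
    rw [mul_one_div, le_div_iff₀ (by positivity), mul_comm]
    exact hC' n
  calc ((1 / 2 : ℝ) ^ s) ^ n * ((1 / 2 : ℝ) ^ (1 - s)) ^ n
      ≤ ((1 / 2 : ℝ) ^ s) ^ n * (C * (1 / ((n : ℝ) + 2) ^ 4)) :=
        mul_le_mul_of_nonneg_left h7 hq.le
    _ = (4 * C) * ((1 / 4 : ℝ) * ((1 / 2 : ℝ) ^ s) ^ n * (1 / ((n : ℝ) + 2) ^ 4)) := by ring
    _ ≤ (4 * C) * ((1 / 4 : ℝ) ^ s * ((1 / 2 : ℝ) ^ s) ^ n * (1 / ((n : ℝ) + 2) ^ 4) ^ s) := by
        refine mul_le_mul_of_nonneg_left ?_ (by positivity)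
        refine mul_le_mul (mul_le_mul_of_nonneg_right b1 hq.le) b2 (by positivity) (by positivity)

theorem yy_holder (s : ℝ) (hs0 : 0 < s) (hs1 : s < 1) :
    ∃ C : ℝ≥0, ∀ w w' : ℕ → Bool, |yy w - yy w'| ≤ C * |cc w - cc w'| ^ s := by
  obtain ⟨C, hC⟩ := sp_pow s hs0 hs1
  refine ⟨C, fun w w' => ?_⟩
  by_cases h : w = w'
  · subst h
    simp only [sub_self, abs_zero]
    positivity
  obtain ⟨n, h1, h2⟩ := first_diff h
  have h3 := cc_sep h1 h2
  have h4 : |yy w - yy w'| ≤ ((2 : ℝ) ^ n)⁻¹ := by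
    have := Real.abs_ofDigits_sub_ofDigits_le (b := 2) (n := n)
      (x := fun k => if w k then 1 else 0) (y := fun k => if w' k then 1 else 0)
      (fun i hi => by simp only [h1 i hi])
    exact_mod_cast this
  refine h4.trans ((hC n).trans ?_)
  exact mul_le_mul_of_nonneg_left (Real.rpow_le_rpow (sp_pos n).le h3 hs0.le) C.2

open Classical in
/-- binary value of a point of the Cantor set -/
noncomputable def ff (t : ℝ) : ℝ := if h : ∃ w, cc w = t then yy h.choose else 0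

theorem ff_cc (w : ℕ → Bool) : ff (cc w) = yy w := by
  have hex : ∃ w', cc w' = cc w := ⟨w, rfl⟩
  rw [ff, dif_pos hex]
  congr 1
  exact cc_inj hex.choose_spec

theorem ff_holder (s : ℝ≥0) (hs0 : 0 < s) (hs1 : s < 1) : ∃ C, HolderOnWith C s ff KK := by
  obtain ⟨C, hC⟩ := yy_holder s (by exact_mod_cast hs0) (by exact_mod_cast hs1)
  refine ⟨C, ?_⟩
  rintro _ ⟨w, rfl⟩ _ ⟨w', rfl⟩
  rw [ff_cc, ff_cc, edist_dist, edist_dist, Real.dist_eq, Real.dist_eq]
  have h1 : ENNReal.ofReal |yy w - yy w'| ≤ ENNReal.ofReal (C * |cc w - cc w'| ^ (s : ℝ)) :=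
    ENNReal.ofReal_le_ofReal (hC w w')
  refine h1.trans (le_of_eq ?_)
  rw [ENNReal.ofReal_mul (NNReal.coe_nonneg C), ENNReal.ofReal_rpow_of_nonneg (abs_nonneg _) (NNReal.coe_nonneg s),
    ENNReal.ofReal_coe_nnreal]

theorem Ico_sub : Ico (0:ℝ) 1 ⊆ ff '' KK := by
  intro x hx
  set w : ℕ → Bool := fun k => decide (Real.digits x 2 k = 1) with hw
  refine ⟨cc w, ⟨w, rfl⟩, ?_⟩
  rw [ff_cc, yy]
  have h1 : (fun k => if w k then (1 : Fin 2) else 0) = Real.digits x 2 := by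
    ext k
    simp only [hw, decide_eq_true_eq]
    have : ∀ a : Fin 2, (if a = 1 then (1 : Fin 2) else 0) = a := by decide
    rw [this]
  rw [h1]
  exact Real.ofDigits_digits (by norm_num) hx

theorem dim_ge (s : ℝ≥0) (hs0 : 0 < s) (hs1 : s < 1) : (s : ℝ≥0∞) ≤ dimH KK := by
  obtain ⟨C, hC⟩ := ff_holder s hs0 hs1
  have h1 := hC.dimH_image_le hs0
  have h2 : dimH (Ico (0:ℝ) 1) ≤ dimH (ff '' KK) := dimH_mono Ico_sub
  have h3 : dimH (Ico (0:ℝ) 1) = 1 := by
    have := Real.dimH_of_nonempty_interior (E := ℝ) (s := Ico (0:ℝ) 1) (by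
      rw [interior_Ico]
      exact ⟨1 / 2, by norm_num, by norm_num⟩)
    simpa using this
  rw [h3] at h2
  have h4 := h2.trans h1
  have hs : (s : ℝ≥0∞) ≠ 0 := by exact_mod_cast hs0.ne'
  rwa [ENNReal.le_div_iff_mul_le (Or.inl hs) (Or.inl ENNReal.coe_ne_top), one_mul] at h4

theorem dim : S_DIM := by
  unfold S_DIM
  refine le_of_forall_lt fun c hc => ?_
  have hct : c ≠ ⊤ := (hc.trans ENNReal.one_lt_top).ne
  lift c to ℝ≥0 using hct
  have hc1 : c < 1 := by exact_mod_cast hc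
  obtain ⟨s, h1, h2⟩ := exists_between hc1
  refine lt_of_lt_of_le ?_ (dim_ge s (lt_of_le_of_lt bot_le h1) h2)
  exact_mod_cast h1

end Pool.Agent.Y361.BC
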